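import Mathlib
import Pool.Agent.Helper65_Leo.Local

/-!
# LRN, row KER: the kernel of Leopoldt's conjecture in a minimal counterexample lies in the
# group of new units
-/

set_option autoImplicit false
set_option linter.unusedSectionVars false

open NumberField Filter Topology
open Pool.Agent.Helper85_Leo

namespace Pool.Agent.LRN.H74

/-! ### Linear algebra over the rationals -/

theorem lde {V : Type*} [AddCommGroup V] [Module ℚ V] {n : ℕ} (a : Fin n → V) :
    ∃ (s : ℕ) (e : Fin s → V) (v : Fin s → Fin n → ℤ), LinearIndependent ℚ e ∧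
      ∀ i, a i = ∑ k, (v k i : ℚ) • e k := by
  classical
  let W : Submodule ℚ V := Submodule.span ℚ (Set.range a)
  have : Module.Finite ℚ W := Module.Finite.span_of_finite ℚ (Set.finite_range a)
  let b := Module.finBasis ℚ W
  have haW : ∀ i, a i ∈ W := fun i => Submodule.subset_span ⟨i, rfl⟩
  let q : Fin (Module.finrank ℚ W) → Fin n → ℚ := fun k i => b.repr ⟨a i, haW i⟩ k
  obtain ⟨D, hD⟩ := IsLocalization.exist_integer_multiples_of_finset (nonZeroDivisors ℤ)
    (Finset.univ.image fun x : Fin (Module.finrank ℚ W) × Fin n => q x.1 x.2)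
  have hD' : ∀ x : Fin (Module.finrank ℚ W) × Fin n, ∃ z : ℤ, (z : ℚ) = (D : ℤ) * q x.1 x.2 := by
    intro x
    obtain ⟨z, hz⟩ := hD (q x.1 x.2)
      (Finset.mem_image_of_mem (fun x : Fin (Module.finrank ℚ W) × Fin n => q x.1 x.2)
        (Finset.mem_univ x))
    refine ⟨z, ?_⟩
    rw [← zsmul_eq_mul]
    exact hz
  choose z hz using hD'
  have hD0 : ((D : ℤ) : ℚ) ≠ 0 := by
    have := nonZeroDivisors.coe_ne_zero D
    exact_mod_cast this
  refine ⟨Module.finrank ℚ W, fun k => (((D : ℤ) : ℚ)⁻¹) • ((b k : W) : V), fun k i => z (k, i),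
    ?_, fun i => ?_⟩
  · have h1 : LinearIndependent ℚ fun k => ((b k : W) : V) :=
      b.linearIndependent.map' W.subtype (Submodule.ker_subtype W)
    have h2 := h1.units_smul (fun _ => (Units.mk0 (((D : ℤ) : ℚ)⁻¹) (inv_ne_zero hD0)))
    exact h2
  · have h1 := b.sum_repr ⟨a i, haW i⟩
    have h2 := congrArg (fun x : W => (x : V)) h1
    simp only [Submodule.coe_sum, Submodule.coe_smul] at h2
    rw [← h2]
    refine Finset.sum_congr rfl fun k _ => ?_
    have h3 := hz (k, i)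
    rw [smul_smul]
    congr 1
    simp only at h3
    rw [h3]
    change q k i = _
    field_simp

/-- Integral relations between a rational-linearly independent family. -/
theorem int_indep {V : Type*} [AddCommGroup V] [Module ℚ V] {s : ℕ} {e : Fin s → V}
    (he : LinearIndependent ℚ e) (z : Fin s → ℤ) (h : ∑ k, (z k : ℚ) • e k = 0) : z = 0 := by
  have h1 := Fintype.linearIndependent_iff.1 he (fun k => (z k : ℚ)) h
  funext k
  exact_mod_cast h1 k

/-! ### Dependent units in a field which satisfies Leopoldt's conjecture -/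

theorem loe (p : ℕ) [hp : Fact p.Prime] (E : Type) [Field E] [NumberField E]
    (hL : LeopoldtAt E p) {n : ℕ} (ν : Fin n → (𝓞 E)ˣ)
    (hν : ∀ i, ((ν i : 𝓞 E) - 1) ∈ (Ideal.span {((p : ℕ) : 𝓞 E)}).radical)
    (a : Fin n → ℤ_[p]) (m : ℕ → Fin n → ℤ)
    (hm : ∀ i, Tendsto (fun k => ((m k i : ℤ) : ℤ_[p])) atTop (𝓝 (a i)))
    (hdiv : ∀ N : ℕ, ∀ᶠ k in atTop,
      ((p : ℕ) : 𝓞 E) ^ N ∣ (((∏ i, ν i ^ m k i : (𝓞 E)ˣ) : 𝓞 E) - 1)) :
    ∃ (t : ℕ) (P : ℕ) (B : Fin t → Fin n → ℤ), 0 < P ∧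
      (∀ j, ∑ i, (B j i : ℤ_[p]) * a i = 0) ∧
      ∀ z : Fin n → ℤ, (∀ j, ∑ i, B j i * z i = 0) → (∏ i, ν i ^ z i) ^ P = 1 := by
  classical
  obtain ⟨S, hS, hS'⟩ := exists_maximal_linearIndepOn ℤ
    (fun i : Fin n => (Additive.ofMul (ν i) : Additive (𝓞 E)ˣ))
  let t := Fintype.card S
  let g : Fin t ≃ S := (Fintype.equivFin S).symm
  let μ : Fin t → (𝓞 E)ˣ := fun j => ν (g j).1
  -- independence
  have hμ : ∀ c : Fin t → ℤ, ∏ j, μ j ^ c j = 1 → c = 0 := by
    intro c hc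
    have h1 : LinearIndependent ℤ fun x : S => (Additive.ofMul (ν x.1) : Additive (𝓞 E)ˣ) := hS
    have h2 := h1.comp g g.injective
    rw [Fintype.linearIndependent_iff] at h2
    funext j
    refine h2 c ?_ j
    have h3 := congrArg Additive.ofMul hc
    rw [ofMul_prod, ofMul_one] at h3
    rw [← h3]
    exact Finset.sum_congr rfl fun j _ => rfl
  -- every `ν i` has a power in the span
  have hpow : ∀ i, ∃ (N : ℕ) (B : Fin t → ℤ), 0 < N ∧ ν i ^ N = ∏ j, μ j ^ B j := by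
    intro i
    by_cases hi : i ∈ S
    · refine ⟨1, fun j => if g j = ⟨i, hi⟩ then 1 else 0, one_pos, ?_⟩
      rw [pow_one, Finset.prod_eq_single (g.symm ⟨i, hi⟩)]
      · simp [μ]
      · intro j _ hj
        change μ j ^ (if g j = ⟨i, hi⟩ then (1 : ℤ) else 0) = 1
        rw [if_neg, zpow_zero]
        intro h
        exact hj (by rw [← h, Equiv.symm_apply_apply])
      · intro h
        exact absurd (Finset.mem_univ _) h
    · obtain ⟨c, hc0, hc⟩ := hS' i hi
      have h1 : ((fun i : Fin n => (Additive.ofMul (ν i) : Additive (𝓞 E)ˣ)) '' S)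
          = Set.range fun j : Fin t => (Additive.ofMul (μ j) : Additive (𝓞 E)ˣ) := by
        ext x
        constructor
        · rintro ⟨i', hi', rfl⟩
          exact ⟨g.symm ⟨i', hi'⟩, by simp [μ]⟩
        · rintro ⟨j, rfl⟩
          exact ⟨(g j).1, (g j).2, rfl⟩
      rw [h1, Submodule.mem_span_range_iff_exists_fun] at hc
      obtain ⟨b, hb⟩ := hc
      have h2 : ν i ^ c = ∏ j, μ j ^ b j := by
        have h3 := congrArg Additive.toMul hb
        rw [toMul_sum] at h3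
        exact h3.symm
      rcases lt_or_gt_of_ne hc0 with hneg | hpos
      · refine ⟨c.natAbs, fun j => -b j, Int.natAbs_pos.2 hc0, ?_⟩
        have h4 : ((c.natAbs : ℕ) : ℤ) = -c := by omega
        rw [← zpow_natCast, h4, zpow_neg, h2]
        simp only [zpow_neg, Finset.prod_inv_distrib]
      · refine ⟨c.natAbs, b, Int.natAbs_pos.2 hc0, ?_⟩
        have h4 : ((c.natAbs : ℕ) : ℤ) = c := by omega
        rw [← zpow_natCast, h4, h2]
  choose N B hN hNB using hpow
  set P : ℕ := ∏ i, N i with hP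
  have hPpos : 0 < P := Finset.prod_pos fun i _ => hN _
  have hPB : ∀ i, ∃ B' : Fin t → ℤ, ν i ^ P = ∏ j, μ j ^ B' j := by
    intro i
    obtain ⟨q, hq⟩ : N i ∣ P := Finset.dvd_prod_of_mem (fun i => N i) (Finset.mem_univ i)
    refine ⟨fun j => B i j * q, ?_⟩
    rw [hq, pow_mul, hNB, ← Finset.prod_pow]
    refine Finset.prod_congr rfl fun j _ => ?_
    rw [zpow_mul, zpow_natCast]
  choose B' hB' using hPB
  have hprod : ∀ z : Fin n → ℤ, (∏ i, ν i ^ z i) ^ P = ∏ j, μ j ^ (∑ i, B' i j * z i) := by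
    intro z
    have h1 : (∏ i, ν i ^ z i) ^ P = ∏ i, (ν i ^ P) ^ z i := by
      rw [← Finset.prod_pow]
      refine Finset.prod_congr rfl fun i _ => ?_
      rw [← zpow_natCast, ← zpow_natCast, ← zpow_mul, ← zpow_mul, mul_comm]
    rw [h1]
    have h2 : ∀ i, (ν i ^ P) ^ z i = ∏ j, μ j ^ (B' i j * z i) := by
      intro i
      rw [hB' i, ← Finset.prod_zpow]
      refine Finset.prod_congr rfl fun j _ => ?_
      rw [zpow_mul]
    simp only [h2]
    rw [Finset.prod_comm]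
    refine Finset.prod_congr rfl fun j _ => ?_
    exact prod_zpow_eq (μ j) _ _
  refine ⟨t, P, fun j i => B' i j, hPpos, ?_, ?_⟩
  · have h1 := hL t μ (fun j => hν _) hμ (fun j => ∑ i, (B' i j : ℤ_[p]) * a i)
      (fun k j => ∑ i, B' i j * m k i) ?_ ?_
    · intro j
      exact congrFun h1 j
    · intro j
      have h2 : ∀ k, ((∑ i, B' i j * m k i : ℤ) : ℤ_[p])
          = ∑ i, (B' i j : ℤ_[p]) * ((m k i : ℤ) : ℤ_[p]) := by
        intro k
        push_cast
        rfl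
      simp only [h2]
      exact tendsto_finsetSum _ fun i _ => Tendsto.const_mul _ (hm i)
    · intro M
      filter_upwards [hdiv M] with k hk
      rw [← hprod]
      refine hk.trans ?_
      push_cast
      exact sub_one_dvd_pow_sub_one _ P
  · intro z hz
    rw [hprod z]
    simp only [hz, zpow_zero, Finset.prod_const_one]

/-! ### Norms and congruences -/

theorem prod_one_add_mul {Ω ι : Type*} [Field Ω] [CharZero Ω] (t : ℤ) (s : Finset ι) (f : ι → Ω)
    (hf : ∀ i, IsIntegral ℤ (f i)) :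
    ∃ z : Ω, IsIntegral ℤ z ∧ ∏ i ∈ s, (1 + (t : Ω) * f i) = 1 + (t : Ω) * z := by
  classical
  induction s using Finset.induction_on with
  | empty => exact ⟨0, isIntegral_zero, by simp⟩
  | insert i s hi ih =>
    obtain ⟨z, hz, hz'⟩ := ih
    have ht : IsIntegral ℤ (t : Ω) := by
      have := (isIntegral_algebraMap (R := ℤ) (A := Ω) (x := t))
      simpa using this
    refine ⟨f i + z + (t : Ω) * (f i * z), ((hf i).add hz).add (ht.mul ((hf i).mul hz)), ?_⟩
    rw [Finset.prod_insert hi, hz']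
    ring

theorem norm_congr {k L : Type} [Field k] [NumberField k] [Field L] [NumberField L] [Algebra k L]
    (t : ℕ) (ht : t ≠ 0) (x : 𝓞 L) (hx : (t : 𝓞 L) ∣ x - 1) :
    (t : 𝓞 k) ∣ RingOfIntegers.norm k x - 1 := by
  classical
  obtain ⟨y, hy⟩ := hx
  let Ω := AlgebraicClosure k
  have : CharZero Ω := charZero_of_injective_algebraMap (algebraMap k Ω).injective
  have h1 : algebraMap k Ω (Algebra.norm k (x : L)) = ∏ σ : L →ₐ[k] Ω, σ (x : L) :=
    Algebra.norm_eq_prod_embeddings k Ω (x : L)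
  have hxy : (x : L) = 1 + (t : L) * (y : L) := by
    have h2 := congrArg (fun w : 𝓞 L => (w : L)) hy
    simp only [map_sub, map_mul, map_natCast, map_one] at h2
    rw [← h2]
    ring
  have h2 : ∀ σ : L →ₐ[k] Ω, σ (x : L) = 1 + ((t : ℤ) : Ω) * σ (y : L) := by
    intro σ
    rw [hxy]
    simp
  obtain ⟨z, hz, hz'⟩ := prod_one_add_mul (Ω := Ω) (t : ℤ)
    (Finset.univ : Finset (L →ₐ[k] Ω)) (fun σ => σ (y : L)) (fun σ => by
      have := y.isIntegral_coe
      exact this.map (σ.toRingHom.toIntAlgHom))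
  simp only [← h2] at hz'
  rw [← h1] at hz'
  have ht0 : (t : k) ≠ 0 := by exact_mod_cast ht
  have htΩ : ((t : ℤ) : Ω) ≠ 0 := by exact_mod_cast ht
  have h3 : algebraMap k Ω ((Algebra.norm k (x : L) - 1) / (t : k)) = z := by
    rw [map_div₀, map_sub, hz', map_one, map_natCast]
    rw [add_sub_cancel_left]
    have h5 : ((t : ℤ) : Ω) = (t : Ω) := by simp
    rw [h5] at htΩ ⊢
    exact mul_div_cancel_left₀ z htΩ
  have h4 : IsIntegral ℤ ((Algebra.norm k (x : L) - 1) / (t : k)) := by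
    rw [← isIntegral_algebraMap_iff (algebraMap k Ω).injective, h3]
    exact hz
  obtain ⟨w, hw⟩ : ∃ w : 𝓞 k, (w : k) = (Algebra.norm k (x : L) - 1) / (t : k) := ⟨⟨_, h4⟩, rfl⟩
  refine ⟨w, ?_⟩
  apply RingOfIntegers.ext
  have h6 : ((RingOfIntegers.norm k x - 1 : 𝓞 k) : k) = Algebra.norm k (x : L) - 1 := rfl
  have h7 : (((t : 𝓞 k) * w : 𝓞 k) : k) = (t : k) * (w : k) := by simp
  rw [h6, h7, hw]
  field_simp

theorem rad_iff (p : ℕ) [hp : Fact p.Prime] {A : Type*} [CommRing A] (x : A) :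
    x - 1 ∈ (Ideal.span {(p : A)}).radical ↔ ∃ s : ℕ, (p : A) ∣ x ^ p ^ s - 1 := by
  constructor
  · intro h
    obtain ⟨N, hN⟩ := Ideal.mem_radical_iff.1 h
    rw [Ideal.mem_span_singleton] at hN
    obtain ⟨s, hs⟩ : ∃ s : ℕ, N ≤ p ^ s := ⟨N, (Nat.lt_pow_self hp.out.one_lt).le⟩
    refine ⟨s, ?_⟩
    obtain ⟨q, hq⟩ := exists_add_pow_prime_pow_eq hp.out (x - 1) (1 : A) s
    rw [sub_add_cancel, one_pow] at hq
    rw [hq]
    have h1 : (p : A) ∣ (x - 1) ^ p ^ s := hN.trans (pow_dvd_pow _ hs)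
    have h2 : (x - 1) ^ p ^ s + 1 + (p : A) * (x - 1) * 1 * q - 1
        = (x - 1) ^ p ^ s + (p : A) * ((x - 1) * q) := by ring
    rw [h2]
    exact dvd_add h1 (dvd_mul_right _ _)
  · rintro ⟨s, hs⟩
    refine Ideal.mem_radical_iff.2 ⟨p ^ s, ?_⟩
    rw [Ideal.mem_span_singleton]
    obtain ⟨q, hq⟩ := exists_add_pow_prime_pow_eq hp.out (x - 1) (1 : A) s
    rw [sub_add_cancel, one_pow] at hq
    have h2 : (x - 1) ^ p ^ s = (x ^ p ^ s - 1) - (p : A) * ((x - 1) * q) := by rw [hq]; ring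
    rw [h2]
    exact dvd_sub hs (dvd_mul_right _ _)

theorem norm_rad (p : ℕ) [hp : Fact p.Prime] {k L : Type} [Field k] [NumberField k] [Field L]
    [NumberField L] [Algebra k L] (x : 𝓞 L)
    (hx : x - 1 ∈ (Ideal.span {((p : ℕ) : 𝓞 L)}).radical) :
    RingOfIntegers.norm k x - 1 ∈ (Ideal.span {((p : ℕ) : 𝓞 k)}).radical := by
  rw [rad_iff] at hx ⊢
  obtain ⟨s, hs⟩ := hx
  refine ⟨s, ?_⟩
  have h1 := norm_congr (k := k) p hp.out.ne_zero (x ^ p ^ s) hs
  rw [map_pow] at h1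
  exact h1

/-! ### The kernel -/

section main

variable (p : ℕ) [hp : Fact p.Prime] {k : Type} [NontriviallyNormedField k]
  [NormedAlgebra ℚ_[p] k] [CompleteSpace k] [IsUltrametricDist k] [CharZero k] [IsAlgClosed k]

/-- The relation between the logarithms given by a convergent sequence. -/
theorem adl {K : Type} [Field K] [NumberField K] {n : ℕ} (ε : Fin n → (𝓞 K)ˣ)
    (a : Fin n → ℤ_[p]) (m : ℕ → Fin n → ℤ)
    (hm : ∀ i, Tendsto (fun s => ((m s i : ℤ) : ℤ_[p])) atTop (𝓝 (a i)))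
    (hdiv : ∀ N : ℕ, ∀ᶠ s in atTop,
      ((p : ℕ) : 𝓞 K) ^ N ∣ (((∏ i, ε i ^ m s i : (𝓞 K)ˣ) : 𝓞 K) - 1))
    (σ : K →+* k) (e : ℕ) (l : Fin n → k) (hl : ∀ i, HasLog p (unitVal σ (ε i) ^ e) (l i)) :
    ∑ i, algebraMap ℚ_[p] k ((a i : ℤ_[p]) : ℚ_[p]) * l i = 0 := by
  have h1 : ∀ s, HasLog p (unitVal σ ((∏ j, ε j ^ m s j) ^ e)) (∑ i, ((m s i : ℤ) : k) * l i) :=
    fun s => hasLog_unit_prod p σ ε e l hl (m s)
  have h2 : Tendsto (fun s => ∑ i, ((m s i : ℤ) : k) * l i) atTop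
      (𝓝 (∑ i, algebraMap ℚ_[p] k ((a i : ℤ_[p]) : ℚ_[p]) * l i)) := by
    refine tendsto_finsetSum _ fun i _ => ?_
    refine Tendsto.mul_const _ ?_
    have h3 : ∀ s, ((m s i : ℤ) : k) = algebraMap ℚ_[p] k (((m s i : ℤ) : ℤ_[p]) : ℚ_[p]) := by
      intro s
      simp
    simp only [h3]
    refine ((continuous_algebraMap ℚ_[p] k).tendsto _).comp ?_
    exact (continuous_subtype_val.tendsto (a i)).comp (hm i)
  have h5 : Tendsto (fun s => ∑ i, ((m s i : ℤ) : k) * l i) atTop (𝓝 0) := by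
    rw [Metric.tendsto_atTop]
    intro δ hδ
    obtain ⟨N₀, hN₀⟩ : ∃ N₀ : ℕ, (p : ℝ)⁻¹ ^ N₀ < min δ (1 / 2) :=
      exists_pow_lt_of_lt_one (lt_min hδ (by norm_num))
        (inv_lt_one_of_one_lt₀ (by exact_mod_cast hp.out.one_lt))
    obtain ⟨k₀, hk₀⟩ := eventually_atTop.1 (hdiv N₀)
    refine ⟨k₀, fun s hs => ?_⟩
    have h6 := hk₀ s hs
    set w : (𝓞 K)ˣ := ∏ j, ε j ^ m s j with hw
    have h7 : ((p : ℕ) : 𝓞 K) ^ N₀ ∣ ((w ^ e : (𝓞 K)ˣ) : 𝓞 K) - 1 := by
      refine h6.trans ?_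
      push_cast
      exact sub_one_dvd_pow_sub_one (w : 𝓞 K) e
    obtain ⟨x, hx⟩ := h7
    have h8 : ‖unitVal σ (w ^ e) - 1‖ ≤ (p : ℝ)⁻¹ ^ N₀ := by
      have h9 : unitVal σ (w ^ e) - 1 = (p : k) ^ N₀ * σ (x : K) := by
        have h10 := congrArg (fun y : 𝓞 K => σ (y : K)) hx
        simpa [unitVal] using h10
      rw [h9, norm_mul, norm_pow, norm_p_eq p]
      calc _ ≤ (p : ℝ)⁻¹ ^ N₀ * 1 :=
            mul_le_mul_of_nonneg_left (norm_embedding_le_one σ x) (by positivity)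
        _ = _ := mul_one _
    have h11 := (h1 s).norm_le (h8.trans (hN₀.le.trans (min_le_right _ _)))
    rw [dist_zero_right]
    exact lt_of_le_of_lt (h11.trans h8) (hN₀.trans_le (min_le_left _ _))
  exact tendsto_nhds_unique h2 h5

/-- **Row KER.** In a minimal counterexample to Leopoldt's conjecture the logarithms of the new
units are dependent. -/
theorem ker (K : Type) [Field K] [NumberField K] (hK : ¬ LeopoldtAt K p)
    (hE : ∀ E : IntermediateField ℚ K, E ≠ ⊤ → LeopoldtAt E p)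
    {r : ℕ} (u : Fin r → (𝓞 K)ˣ)
    (hmax : ∀ v : (𝓞 K)ˣ, (∀ E : IntermediateField ℚ K, E ≠ ⊤ →
      ∃ m : ℕ, 0 < m ∧ Algebra.norm E ((v : 𝓞 K) : K) ^ m = 1) →
      ∃ (m : ℕ) (c : Fin r → ℤ), 0 < m ∧ v ^ m = ∏ i, u i ^ c i)
    (M : ℕ) (l : (K →+* k) → Fin r → k)
    (hl : ∀ σ i, HasLog p (unitVal σ (u i) ^ M) (l σ i)) :
    ∃ c : Fin r → k, c ≠ 0 ∧ ∀ σ, ∑ i, c i * l σ i = 0 := by
  classical
  -- the failing data
  unfold LeopoldtAt at hK
  push Not at hK
  obtain ⟨n, ε, hε1, hε2, a, m, hm, hdiv, ha⟩ := hK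
  obtain ⟨s, e, v, he, hev⟩ := lde (V := ℚ_[p]) (fun i => ((a i : ℤ_[p]) : ℚ_[p]))
  -- integral relations of the `a i` are relations of the `v`
  have hrel : ∀ b : Fin n → ℤ, ∑ i, (b i : ℤ_[p]) * a i = 0 → ∀ j, ∑ i, b i * v j i = 0 := by
    intro b hb j
    have h1 := congrArg (fun x : ℤ_[p] => (x : ℚ_[p])) hb
    simp only [PadicInt.coe_zero, PadicInt.coe_sum, PadicInt.coe_mul, PadicInt.coe_intCast] at h1
    have h2 : ∑ j, ((∑ i, b i * v j i : ℤ) : ℚ) • e j = 0 := by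
      rw [← h1]
      have h3 : ∀ i, (b i : ℚ_[p]) * ((a i : ℤ_[p]) : ℚ_[p])
          = ∑ j, ((b i * v j i : ℤ) : ℚ) • e j := by
        intro i
        have h4 : ((a i : ℤ_[p]) : ℚ_[p]) = ∑ j, (v j i : ℚ) • e j := hev i
        rw [h4, Finset.mul_sum]
        refine Finset.sum_congr rfl fun j _ => ?_
        rw [Int.cast_mul, mul_smul, Algebra.smul_def ((b i : ℚ))]
        simp
      simp only [h3]
      rw [Finset.sum_comm]
      refine Finset.sum_congr rfl fun j _ => ?_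
      rw [← Finset.sum_smul]
      push_cast
      rfl
    have h5 := int_indep he _ h2
    exact congrFun h5 j
  -- the products are new
  let w : Fin s → (𝓞 K)ˣ := fun j => ∏ i, ε i ^ v j i
  have hnew : ∀ j, ∀ E : IntermediateField ℚ K, E ≠ ⊤ →
      ∃ m : ℕ, 0 < m ∧ Algebra.norm E ((w j : 𝓞 K) : K) ^ m = 1 := by
    intro j E hEt
    let f : (𝓞 K)ˣ →* (𝓞 E)ˣ := Units.map (RingOfIntegers.norm E)
    have hf : ∀ x : (𝓞 K)ˣ, ((f x : (𝓞 E)ˣ) : 𝓞 E) = RingOfIntegers.norm E (x : 𝓞 K) :=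
      fun x => rfl
    have hfp : ∀ c : Fin n → ℤ, ∏ i, f (ε i) ^ c i = f (∏ i, ε i ^ c i) := by
      intro c
      rw [map_prod]
      refine Finset.prod_congr rfl fun i _ => ?_
      rw [map_zpow]
    obtain ⟨t, P, B, hP, hB1, hB2⟩ := loe p E (hE E hEt) (fun i => f (ε i))
      (fun i => by rw [hf]; exact norm_rad p _ (hε1 i)) a m hm (by
        intro N
        filter_upwards [hdiv N] with s hs
        rw [hfp, hf]
        have h1 := norm_congr (k := E) (p ^ N) (pow_ne_zero _ hp.out.ne_zero)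
          ((∏ i, ε i ^ m s i : (𝓞 K)ˣ) : 𝓞 K) (by push_cast; exact_mod_cast hs)
        push_cast at h1
        exact_mod_cast h1)
    have h2 := hB2 (v j) (fun q => hrel (B q) (hB1 q) j)
    rw [hfp] at h2
    refine ⟨P, hP, ?_⟩
    have h3 := congrArg (fun x : (𝓞 E)ˣ => ((x : 𝓞 E) : E)) h2
    simp only [Units.val_pow_eq_pow_val, hf, Units.val_one, map_pow, map_one] at h3
    exact h3
  choose N c hN hNc using fun j => hmax (w j) (hnew j)
  set Q : ℕ := ∏ j, N j with hQ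
  have hQpos : 0 < Q := Finset.prod_pos fun j _ => hN _
  have hQB : ∀ j, ∃ d : Fin r → ℤ, w j ^ Q = ∏ i, u i ^ d i := by
    intro j
    obtain ⟨q, hq⟩ : N j ∣ Q := Finset.dvd_prod_of_mem (fun j => N j) (Finset.mem_univ j)
    refine ⟨fun i => c j i * q, ?_⟩
    rw [hq, pow_mul, hNc, ← Finset.prod_pow]
    refine Finset.prod_congr rfl fun i _ => ?_
    rw [zpow_mul, zpow_natCast]
  choose d hd using hQB
  -- logarithms
  obtain ⟨m₀, hm₀, hlog₀⟩ := Pool.Agent.Helper65_Leo.exists_hasLog_unit p (k := k) K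
  choose Λ₀ hΛ₀ using hlog₀
  let Λ : (K →+* k) → (𝓞 K)ˣ → k := fun σ x => (M : k) * Λ₀ σ x
  have hΛ : ∀ σ x, HasLog p (unitVal σ x ^ (m₀ * M)) (Λ σ x) := by
    intro σ x
    rw [pow_mul]
    exact (hΛ₀ σ x).pow M
  have hΛu : ∀ σ i, Λ σ (u i) = (m₀ : k) * l σ i := by
    intro σ i
    have h1 := (hl σ i).pow m₀
    rw [← pow_mul, mul_comm M m₀] at h1
    exact (hΛ σ (u i)).unique h1
  have hΛp : ∀ σ {q : ℕ} (η : Fin q → (𝓞 K)ˣ) (z : Fin q → ℤ),
      Λ σ (∏ i, η i ^ z i) = ∑ i, (z i : k) * Λ σ (η i) := by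
    intro σ q η z
    have h1 := hasLog_unit_prod p σ η (m₀ * M) (fun i => Λ σ (η i)) (fun i => hΛ σ (η i)) z
    have h2 := hΛ σ (∏ i, η i ^ z i)
    rw [← map_pow] at h2
    exact h2.unique h1
  have hΛpow : ∀ σ (x : (𝓞 K)ˣ) (q : ℕ), Λ σ (x ^ q) = (q : k) * Λ σ x := by
    intro σ x q
    have h1 := (hΛ σ x).pow q
    have h2 := hΛ σ (x ^ q)
    rw [map_pow, ← pow_mul, mul_comm q, pow_mul] at h2
    exact h2.unique h1
  -- the coefficients
  have hm₀k : (m₀ : k) ≠ 0 := by exact_mod_cast hm₀.ne'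
  refine ⟨fun i => ∑ j, algebraMap ℚ_[p] k (e j) * (d j i : k), ?_, ?_⟩
  · intro h0
    apply ha
    have h1 : ∀ j i, d j i = 0 := by
      intro j i
      have h2 := congrFun h0 i
      simp only [Pi.zero_apply] at h2
      have h3 : algebraMap ℚ_[p] k (∑ j, ((d j i : ℤ) : ℚ) • e j) = 0 := by
        rw [← h2, map_sum]
        refine Finset.sum_congr rfl fun j _ => ?_
        rw [Algebra.smul_def, map_mul]
        simp [mul_comm]
      have h4 := (map_eq_zero _).1 h3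
      exact congrFun (int_indep he (fun j => d j i) h4) j
    have h5 : ∀ j, v j = 0 := by
      intro j
      have h6 : w j ^ Q = 1 := by rw [hd j]; simp [h1]
      have h7 : ∏ i, ε i ^ (v j i * Q) = 1 := by
        rw [← h6]
        change _ = (∏ i, ε i ^ v j i) ^ Q
        rw [← Finset.prod_pow]
        refine Finset.prod_congr rfl fun i _ => ?_
        rw [zpow_mul, zpow_natCast]
      have h8 := hε2 _ h7
      funext i
      have h9 := congrFun h8 i
      simp only [Pi.zero_apply] at h9 ⊢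
      rcases mul_eq_zero.1 h9 with h | h
      · exact h
      · exact absurd h (by exact_mod_cast hQpos.ne')
    funext i
    have h6 := hev i
    simp only [h5, Pi.zero_apply, Int.cast_zero, zero_smul, Finset.sum_const_zero] at h6
    exact Subtype.ext h6
  · intro σ
    have h1 := adl p ε a m hm hdiv σ (m₀ * M) (fun i => Λ σ (ε i)) (fun i => hΛ σ (ε i))
    have h2 : ∑ j, algebraMap ℚ_[p] k (e j) * Λ σ (w j) = 0 := by
      rw [← h1]
      have h3 : ∀ i, algebraMap ℚ_[p] k ((a i : ℤ_[p]) : ℚ_[p]) * Λ σ (ε i)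
          = ∑ j, algebraMap ℚ_[p] k (e j) * ((v j i : k) * Λ σ (ε i)) := by
        intro i
        have h4 : ((a i : ℤ_[p]) : ℚ_[p]) = ∑ j, (v j i : ℚ) • e j := hev i
        rw [h4, map_sum, Finset.sum_mul]
        refine Finset.sum_congr rfl fun j _ => ?_
        rw [Algebra.smul_def, map_mul]
        simp only [map_intCast]
        ring
      simp only [h3]
      rw [Finset.sum_comm]
      refine Finset.sum_congr rfl fun j _ => ?_
      rw [← Finset.mul_sum, ← hΛp]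
    have h5 : ∀ j, (Q : k) * Λ σ (w j) = ∑ i, (d j i : k) * ((m₀ : k) * l σ i) := by
      intro j
      rw [← hΛpow, hd j, hΛp]
      refine Finset.sum_congr rfl fun i _ => ?_
      rw [hΛu]
    have h6 : (m₀ : k) * ∑ i, (∑ j, algebraMap ℚ_[p] k (e j) * (d j i : k)) * l σ i = 0 := by
      calc _ = ∑ i, ∑ j, algebraMap ℚ_[p] k (e j) * ((d j i : k) * ((m₀ : k) * l σ i)) := by
            rw [Finset.mul_sum]
            refine Finset.sum_congr rfl fun i _ => ?_
            rw [Finset.sum_mul, Finset.mul_sum]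
            refine Finset.sum_congr rfl fun j _ => ?_
            ring
        _ = ∑ j, algebraMap ℚ_[p] k (e j) * ((Q : k) * Λ σ (w j)) := by
            rw [Finset.sum_comm]
            refine Finset.sum_congr rfl fun j _ => ?_
            rw [h5, Finset.mul_sum]
        _ = (Q : k) * ∑ j, algebraMap ℚ_[p] k (e j) * Λ σ (w j) := by
            rw [Finset.mul_sum]
            refine Finset.sum_congr rfl fun j _ => ?_
            ring
        _ = 0 := by rw [h2, mul_zero]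
    exact (mul_eq_zero.1 h6).resolve_left hm₀k

end main

end Pool.Agent.LRN.H74
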