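import Pool.Agent.LRN.Defs
import Pool.Agent.Helper74_LRN.KER

/-!
# LRN, row KER
-/

set_option autoImplicit false

open NumberField

namespace Pool.Agent.LRN.H74

theorem kerS : KerStmt := by
  intro p hp K _ _ r e u l hK hu hl
  exact ker (k := ℂ_[p]) p K hK.1 hK.2 u hu.max e l hl

end Pool.Agent.LRN.H74
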