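import Pool.Agent.LRN.StmtsB

/-!
# LRN, rows LHM and MCX
-/

set_option autoImplicit false

open NumberField
open Pool.Agent.Helper85_Leo (LeopoldtAt)
open Pool.Agent.LRG

namespace Pool.Agent.LRN.H74

theorem lhm : LhmStmt := by
  intro p hp F K _ _ _ _ f h n ε h1 h2 a m h3 h4
  let g₀ : 𝓞 F →+* 𝓞 K := RingOfIntegers.mapRingHom f
  let g : (𝓞 F)ˣ →* (𝓞 K)ˣ := Units.map (g₀ : 𝓞 F →* 𝓞 K)
  have hg : ∀ u : (𝓞 F)ˣ, ((g u : (𝓞 K)ˣ) : 𝓞 K) = g₀ (u : 𝓞 F) := fun u => rfl
  have hg0 : Function.Injective g₀ := by
    intro x y hxy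
    have h5 := congrArg (fun z : 𝓞 K => (z : K)) hxy
    have h6 : f (x : F) = f (y : F) := h5
    exact RingOfIntegers.ext (f.injective h6)
  have hginj : Function.Injective g := Units.map_injective hg0
  have hprod : ∀ c : Fin n → ℤ, ∏ i, g (ε i) ^ c i = g (∏ i, ε i ^ c i) := by
    intro c
    rw [map_prod]
    refine Finset.prod_congr rfl fun i _ => ?_
    rw [map_zpow]
  refine h n (fun i => g (ε i)) ?_ ?_ a m h3 ?_
  · intro i
    obtain ⟨N, hN⟩ := Ideal.mem_radical_iff.1 (h1 i)
    refine Ideal.mem_radical_iff.2 ⟨N, ?_⟩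
    rw [Ideal.mem_span_singleton] at hN ⊢
    have := map_dvd g₀ hN
    rw [map_pow, map_sub, map_one, map_natCast] at this
    exact this
  · intro c hc
    apply h2 c
    apply hginj
    rw [map_one, ← hprod]
    exact hc
  · intro N
    filter_upwards [h4 N] with k hk
    have := map_dvd g₀ hk
    rw [map_pow, map_natCast, map_sub, map_one] at this
    rw [hprod]
    exact this

theorem mcx : McxStmt := by
  intro p hp
  have key : ∀ (d : ℕ) (K : IntermediateField ℚ ℂ) [NumberField K], Module.finrank ℚ K ≤ d →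
      ¬ LeopoldtAt K p → ∃ (E : IntermediateField ℚ ℂ) (_ : NumberField E), E ≤ K ∧ MinCex E p := by
    intro d
    induction d with
    | zero =>
      intro K _ hd _
      have : 0 < Module.finrank ℚ K := Module.finrank_pos
      omega
    | succ d ih =>
      intro K hK hd hL
      by_cases hmin : ∀ E : IntermediateField ℚ K, E ≠ ⊤ → LeopoldtAt E p
      · exact ⟨K, hK, le_refl K, hL, hmin⟩
      push Not at hmin
      obtain ⟨E, hE, hEL⟩ := hmin
      have e : E ≃ₐ[ℚ] IntermediateField.lift E := IntermediateField.liftAlgEquiv E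
      have hLn : NumberField (IntermediateField.lift E) := NumberField.of_ringEquiv E _ e.toRingEquiv
      have hbad : ¬ LeopoldtAt (IntermediateField.lift E) p :=
        fun h => hEL (lhm p E (IntermediateField.lift E) e.toRingHom h)
      have hdeg : Module.finrank ℚ (IntermediateField.lift E) = Module.finrank ℚ E :=
        (e.toLinearEquiv.finrank_eq).symm
      have hlt : Module.finrank ℚ E < Module.finrank ℚ K := by
        have h1 : Module.finrank ℚ E * Module.finrank E K = Module.finrank ℚ K :=
          Module.finrank_mul_finrank ℚ E K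
        have h2 : 0 < Module.finrank ℚ E := Module.finrank_pos
        have h3 : 0 < Module.finrank E K := Module.finrank_pos
        have h4 : Module.finrank E K ≠ 1 := fun h => hE (IntermediateField.finrank_eq_one_iff_eq_top.1 h)
        nlinarith [Nat.lt_of_le_of_ne h3 (Ne.symm h4)]
      obtain ⟨E₁, hE₁, hle, hmc⟩ := ih (IntermediateField.lift E) (by rw [hdeg]; omega) hbad
      exact ⟨E₁, hE₁, hle.trans (IntermediateField.lift_le E), hmc⟩
  intro K _ hL
  exact key _ K le_rfl hL

end Pool.Agent.LRN.H74
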