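import Pool.Agent.LRN.Stmts

/-!
# LRN, row DIR
-/

set_option autoImplicit false

open NumberField
open Pool.Agent.LRG

namespace Pool.Agent.LRN.H74

theorem indep_fundSystem (K : Type) [Field K] [NumberField K] :
    Indep (Units.fundSystem K) := by
  intro c hc
  obtain ⟨y, _, hy⟩ := Units.exist_unique_eq_mul_prod K (1 : (𝓞 K)ˣ)
  have h1 := hy (1, c) (by simp [hc])
  have h2 := hy (1, 0) (by simp)
  have h3 := h1.trans h2.symm
  exact (Prod.ext_iff.1 h3).2

theorem rank_le (E : Type) [Field E] [NumberField E] : Units.rank E + 1 ≤ Module.finrank ℚ E := by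
  classical
  have h1 : Fintype.card (InfinitePlace E) ≤ Module.finrank ℚ E := by
    rw [← NumberField.Embeddings.card E ℂ]
    exact Fintype.card_le_of_surjective (fun φ : E →+* ℂ => InfinitePlace.mk φ)
      (fun w => ⟨w.embedding, InfinitePlace.mk_embedding w⟩)
  have h2 : Units.rank E = Fintype.card (InfinitePlace E) - 1 := rfl
  have h3 : 0 < Module.finrank ℚ E := Module.finrank_pos
  omega

theorem dir : DirStmt := by
  classical
  refine ⟨?_, ?_⟩
  · intro K _ _
    refine ⟨∑ i, ∑ σ : K →+* ℂ, ‖σ ((Units.fundSystem K i : 𝓞 K) : K)‖, Units.fundSystem K,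
      indep_fundSystem K, ?_⟩
    intro i σ
    calc ‖σ ((Units.fundSystem K i : 𝓞 K) : K)‖
        ≤ ∑ σ : K →+* ℂ, ‖σ ((Units.fundSystem K i : 𝓞 K) : K)‖ :=
          Finset.single_le_sum (f := fun σ : K →+* ℂ => ‖σ ((Units.fundSystem K i : 𝓞 K) : K)‖)
            (fun _ _ => norm_nonneg _) (Finset.mem_univ σ)
      _ ≤ _ := Finset.single_le_sum
            (f := fun i => ∑ σ : K →+* ℂ, ‖σ ((Units.fundSystem K i : 𝓞 K) : K)‖)
            (fun _ _ => Finset.sum_nonneg fun _ _ => norm_nonneg _) (Finset.mem_univ i)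
  · intro K _ _ E hE hrank h
    have hdvd : Module.finrank ℚ E * Module.finrank E K = Module.finrank ℚ K :=
      Module.finrank_mul_finrank ℚ E K
    have hE1 : 0 < Module.finrank ℚ E := Module.finrank_pos
    have hne : Module.finrank E K ≠ 1 := by
      intro h1
      apply hE
      exact IntermediateField.finrank_eq_one_iff_eq_top.1 h1
    have hK1 : 0 < Module.finrank E K := Module.finrank_pos
    have hr := rank_le E
    rcases h with h | h | h
    · rw [h] at hdvd
      have h2 : 2 ≤ Module.finrank E K := by omega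
      have h3 : Module.finrank ℚ E ≤ 2 := by nlinarith
      omega
    · rw [← hdvd] at h
      rcases Nat.prime_mul_iff.1 h with ⟨_, h2⟩ | ⟨_, h2⟩
      · exact absurd h2 hne
      · omega
    · omega

end Pool.Agent.LRN.H74
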